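import Pool.Agent.Helper28.CQ.Stmts

set_option autoImplicit false

namespace CQ

open Relation

namespace LFI

theorem nd_self {G : Type*} [Group G] {ℓ : G → ℕ} (h : IsNorm ℓ) (x : G) : nd ℓ x x = 0 := by
  unfold nd
  rw [inv_mul_cancel, h.eq_zero]

theorem nd_comm {G : Type*} [Group G] {ℓ : G → ℕ} (h : IsNorm ℓ) (x y : G) :
    nd ℓ x y = nd ℓ y x := by
  unfold nd
  rw [← h.inv, mul_inv_rev, inv_inv]

theorem nd_tri {G : Type*} [Group G] {ℓ : G → ℕ} (h : IsNorm ℓ) (x y z : G) :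
    nd ℓ x z ≤ nd ℓ x y + nd ℓ y z := by
  unfold nd
  have h1 := h.mul_le (x⁻¹ * y) (y⁻¹ * z)
  have h2 : x⁻¹ * y * (y⁻¹ * z) = x⁻¹ * z := by group
  rwa [h2] at h1

/-- distances in a flat -/
theorem nd_flat {n : ℕ} [NeZero n] {F : Type} [Group F] {ℓ : F → ℕ} {P : GP n F ℓ}
    (W : Walls P) (i : ZMod n) (y : CP n F) (a b a' b' : F) :
    nd (gN ℓ) (y * ι i a * ι (i + 1) b) (y * ι i a' * ι (i + 1) b') = nd ℓ a a' + nd ℓ b b' := by
  unfold nd
  have h1 : (y * ι i a * ι (i + 1) b)⁻¹ * (y * ι i a' * ι (i + 1) b') =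
      ι i (a⁻¹ * a') * ι (i + 1) (b⁻¹ * b') := by
    have h2 : ι i (a⁻¹ * a') * ι (i + 1) (b⁻¹) = ι (i + 1) (b⁻¹) * ι i (a⁻¹ * a') :=
      ι_comm i (a⁻¹ * a') b⁻¹
    rw [map_mul (ι (i + 1)) b⁻¹ b', ← mul_assoc (ι i (a⁻¹ * a')), h2, map_mul, map_inv, map_inv]
    group
  rw [h1, W.gN_prod i _ _ ?_, W.gN_ι]
  exact Subgroup.mem_sup_right ⟨b⁻¹ * b', rfl⟩

/-- encoding of `Z^d` onto `M d k` -/
def enc (d k : ℕ) (hd : 0 < d) (p : V d) : L d k :=
  L.pt (fun j => if j = ⟨0, hd⟩ then p ⟨0, hd⟩ / (k : ℤ) else p j) ((p ⟨0, hd⟩ : ℤ) : ZMod k)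

theorem enc_mem (d k : ℕ) (hd : 0 < d) (p : V d) : enc d k hd p ∈ L.M d k := by
  intro q
  rfl

theorem enc_surj (d k : ℕ) [NeZero k] (hd : 0 < d) (a : L d k) (ha : a ∈ L.M d k) :
    ∃ p, enc d k hd p = a := by
  have hk : (0 : ℤ) < k := by exact_mod_cast Nat.pos_of_ne_zero (NeZero.ne k)
  refine ⟨fun j => if j = ⟨0, hd⟩ then (k : ℤ) * a.pos ⟨0, hd⟩ + (a.rot.val : ℤ) else a.pos j, ?_⟩
  apply L.ext'
  · intro q
    show (0 : ZMod 2) = a.lamp q
    exact (ha q).symm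
  · funext j
    show (if j = ⟨0, hd⟩ then _ else _) = a.pos j
    by_cases hj : j = ⟨0, hd⟩
    · subst hj
      simp only [if_true]
      have hv : (a.rot.val : ℤ) < k := by exact_mod_cast ZMod.val_lt a.rot
      have hv0 : (0 : ℤ) ≤ (a.rot.val : ℤ) := by positivity
      rw [Int.add_comm, Int.add_mul_ediv_left _ _ hk.ne', Int.ediv_eq_zero_of_lt hv0 hv, zero_add]
    · simp only [if_neg hj]
  · show (((if (⟨0, hd⟩ : Fin d) = ⟨0, hd⟩ then (k : ℤ) * a.pos ⟨0, hd⟩ + (a.rot.val : ℤ)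
      else a.pos ⟨0, hd⟩ : ℤ)) : ZMod k) = a.rot
    simp

/-- small steps -/
theorem enc_step (d k : ℕ) [NeZero k] (hd : 0 < d) (B : ℕ)
    (hB : ∀ a : L d k, dI a.pos 0 ≤ 1 → (∀ q, 1 < dI q 0 → a.lamp q = 0) → LN d k a ≤ B)
    (p p' : V d) (h : ∀ j, (p j - p' j).natAbs ≤ 1) :
    nd (LN d k) (enc d k hd p) (enc d k hd p') ≤ B := by
  have hk : (0 : ℤ) < k := by exact_mod_cast Nat.pos_of_ne_zero (NeZero.ne k)
  apply hB
  · rw [dI_le]
    intro j
    show ((-(if j = ⟨0, hd⟩ then p ⟨0, hd⟩ / (k : ℤ) else p j) +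
      (if j = ⟨0, hd⟩ then p' ⟨0, hd⟩ / (k : ℤ) else p' j) - 0 : ℤ)).natAbs ≤ 1
    by_cases hj : j = ⟨0, hd⟩
    · rw [if_pos hj, if_pos hj]
      have h1 := h ⟨0, hd⟩
      have h2 : p ⟨0, hd⟩ ≤ p' ⟨0, hd⟩ + 1 := by omega
      have h3 : p' ⟨0, hd⟩ ≤ p ⟨0, hd⟩ + 1 := by omega
      have key : ∀ u v : ℤ, u ≤ v + 1 → u / (k : ℤ) ≤ v / (k : ℤ) + 1 := by
        intro u v huv
        have : u ≤ v + k := by linarith
        calc u / (k : ℤ) ≤ (v + k) / (k : ℤ) := Int.ediv_le_ediv hk this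
          _ = v / (k : ℤ) + 1 := by
            rw [Int.add_ediv_of_dvd_right (dvd_refl _), Int.ediv_self hk.ne']
      have h4 := key _ _ h2
      have h5 := key _ _ h3
      omega
    · rw [if_neg hj, if_neg hj]
      have := h j
      omega
  · intro q _
    show (0 : ZMod 2) + 0 = 0
    simp

/-- lower bound -/
theorem enc_low (d k : ℕ) [NeZero k] (hd : 0 < d) (p p' : V d) (T : ℕ)
    (h : dI (enc d k hd p).pos (enc d k hd p').pos ≤ T) (j : Fin d) :
    (p j - p' j).natAbs ≤ k * (T + 1) := by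
  have hk0 : 0 < k := Nat.pos_of_ne_zero (NeZero.ne k)
  have hk : (0 : ℤ) < k := by exact_mod_cast hk0
  rw [dI_le] at h
  have h1 := h j
  change (((if j = ⟨0, hd⟩ then p ⟨0, hd⟩ / (k : ℤ) else p j) -
      (if j = ⟨0, hd⟩ then p' ⟨0, hd⟩ / (k : ℤ) else p' j) : ℤ)).natAbs ≤ T at h1
  by_cases hj : j = ⟨0, hd⟩
  · subst hj
    rw [if_pos rfl, if_pos rfl] at h1
    have e1 := Int.mul_ediv_add_emod (p ⟨0, hd⟩) (k : ℤ)
    have e2 := Int.mul_ediv_add_emod (p' ⟨0, hd⟩) (k : ℤ)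
    have m1 := Int.emod_nonneg (p ⟨0, hd⟩) hk.ne'
    have m2 := Int.emod_nonneg (p' ⟨0, hd⟩) hk.ne'
    have l1 := Int.emod_lt_of_pos (p ⟨0, hd⟩) hk
    have l2 := Int.emod_lt_of_pos (p' ⟨0, hd⟩) hk
    have h2 : (p ⟨0, hd⟩ / (k : ℤ) - p' ⟨0, hd⟩ / (k : ℤ)) ≤ T := by omega
    have h3 : -(T : ℤ) ≤ (p ⟨0, hd⟩ / (k : ℤ) - p' ⟨0, hd⟩ / (k : ℤ)) := by omega
    have h4 : (k : ℤ) * (p ⟨0, hd⟩ / (k : ℤ) - p' ⟨0, hd⟩ / (k : ℤ)) ≤ k * T :=
      mul_le_mul_of_nonneg_left h2 hk.le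
    have h5 : (k : ℤ) * (-(T : ℤ)) ≤ (k : ℤ) * (p ⟨0, hd⟩ / (k : ℤ) - p' ⟨0, hd⟩ / (k : ℤ)) :=
      mul_le_mul_of_nonneg_left h3 hk.le
    have h6 : (p ⟨0, hd⟩ - p' ⟨0, hd⟩) =
      (k : ℤ) * (p ⟨0, hd⟩ / (k : ℤ) - p' ⟨0, hd⟩ / (k : ℤ)) +
        (p ⟨0, hd⟩ % (k : ℤ) - p' ⟨0, hd⟩ % (k : ℤ)) := by linarith
    have h7 : |p ⟨0, hd⟩ - p' ⟨0, hd⟩| ≤ (k : ℤ) * (T + 1) := by
      rw [abs_le]
      constructor <;> nlinarith
    have h8 : (((p ⟨0, hd⟩ - p' ⟨0, hd⟩).natAbs : ℕ) : ℤ) ≤ ((k * (T + 1) : ℕ) : ℤ) := by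
      rw [Int.natCast_natAbs]
      push_cast
      exact h7
    exact_mod_cast h8
  · rw [if_neg hj, if_neg hj] at h1
    calc (p j - p' j).natAbs ≤ T := h1
      _ ≤ 1 * (T + 1) := by omega
      _ ≤ k * (T + 1) := Nat.mul_le_mul_right _ hk0

/-- closeness to the leaf -/
theorem leaf_close (d k : ℕ) [NeZero k] (C B : ℕ)
    (hB : ∀ a : L d k, dI a.pos 0 ≤ C → (∀ q, C < dI q 0 → a.lamp q = 0) → LN d k a ≤ B)
    (lam : V d → ZMod 2) (hfin : (Function.support lam).Finite) (a : L d k)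
    (ha : ∀ q, C < dI q a.pos → a.lamp q = lam q) :
    nd (LN d k) a ((⟨lam, 0, 0, hfin⟩ : L d k) * L.pt a.pos 0) ≤ B := by
  apply hB
  · rw [dI_le]
    intro j
    show ((-(a.pos j) + (0 + a.pos j) - 0 : ℤ)).natAbs ≤ C
    simp
  · intro q hq
    show a.lamp (q + a.pos) + (lam (q - -a.pos) + 0) = 0
    have h1 : a.lamp (q + a.pos) = lam (q + a.pos) := by
      apply ha
      have h2 : dI (q + a.pos) a.pos = dI q 0 := by
        unfold dI
        simp
      rw [h2]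
      exact hq
    rw [h1, sub_neg_eq_add, add_zero]
    exact CharTwo.add_self_eq_zero _

end LFI

open LFI

theorem mod_LFIMG : S_DIC → S_DEEP → S_DFLAT → S_LEAF → S_LCOL → S_LP → S_GP → S_WALLS →
    S_LFIMG := by
  intro hDIC hDEEP hDFLAT hLEAF hLCOL hLP hGP hW d k₁ k₂ _ _ hd n _ hn P₂ K f g hfg
  have F1 := hLP d k₁
  have F2 := hLP d k₂
  obtain ⟨P₁⟩ := hGP n hn (L d k₁) (LN d k₁) F1.norm
  have W1 := hW n hn (L d k₁) (LN d k₁) F1.norm P₁
  have W2 := hW n hn (L d k₂) (LN d k₂) F2.norm P₂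
  obtain ⟨ΔF, hcol⟩ := hLCOL d k₂
  have hd0 : 0 < d := by omega
  have hkpos : 0 < k₁ := Nat.pos_of_ne_zero (NeZero.ne k₁)
  -- the parametrisation of a leaf flat
  let par : CP n (L d k₁) → ZMod n → V (d + d) → CP n (L d k₁) := fun y i x =>
    y * ι i (enc d k₁ hd0 (fun j => x (Fin.castAdd d j))) *
      ι (i + 1) (enc d k₁ hd0 (fun j => x (Fin.natAdd d j)))
  have par_dist : ∀ y i x x', nd (gN (LN d k₁)) (par y i x) (par y i x') =
      nd (LN d k₁) (enc d k₁ hd0 (fun j => x (Fin.castAdd d j)))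
        (enc d k₁ hd0 (fun j => x' (Fin.castAdd d j))) +
      nd (LN d k₁) (enc d k₁ hd0 (fun j => x (Fin.natAdd d j)))
        (enc d k₁ hd0 (fun j => x' (Fin.natAdd d j))) := by
    intro y i x x'
    exact nd_flat W1 i y _ _ _ _
  have par_mem : ∀ y i x, par y i x ∈ LF (L.M d k₁) y i := by
    intro y i x
    exact ⟨_, enc_mem _ _ _ _, _, enc_mem _ _ _ _, rfl⟩
  have par_surj : ∀ y i, ∀ w ∈ LF (L.M d k₁) y i, ∃ x, par y i x = w := by
    rintro y i w ⟨a, ha, b, hb, rfl⟩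
    obtain ⟨p, rfl⟩ := enc_surj d k₁ hd0 a ha
    obtain ⟨q, rfl⟩ := enc_surj d k₁ hd0 b hb
    refine ⟨Fin.append p q, ?_⟩
    show y * ι i (enc d k₁ hd0 (fun j => Fin.append p q (Fin.castAdd d j))) *
      ι (i + 1) (enc d k₁ hd0 (fun j => Fin.append p q (Fin.natAdd d j))) = _
    simp only [Fin.append_left, Fin.append_right]
  -- coarse embedding
  obtain ⟨K', ρ, hE⟩ : ∃ (K' : ℕ) (ρ : ℕ → ℕ), ∀ y i,
      EMap (d + d) (nd (gN (LN d k₂))) K' ρ (fun x => f (par y i x)) := by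
    obtain ⟨B, hB⟩ := F1.bdd 1
    refine ⟨K * (B + B) + K, fun S => k₁ * ((K + (K * S + K) + K) + 1), ?_⟩
    intro y i
    constructor
    · intro x x' hx
      rw [dI_le] at hx
      refine (hfg.f_le _ _).trans ?_
      rw [par_dist]
      have h1 := enc_step d k₁ hd0 B hB (fun j => x (Fin.castAdd d j))
        (fun j => x' (Fin.castAdd d j)) (fun j => hx _)
      have h2 := enc_step d k₁ hd0 B hB (fun j => x (Fin.natAdd d j))
        (fun j => x' (Fin.natAdd d j)) (fun j => hx _)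
      have h3 := Nat.mul_le_mul_left K (Nat.add_le_add h1 h2)
      omega
    · intro S x x' hS
      have h1 : nd (gN (LN d k₁)) (par y i x) (par y i x') ≤ K + (K * S + K) + K := by
        have t1 := nd_tri W1.norm (par y i x) (g (f (par y i x))) (par y i x')
        have t2 := nd_tri W1.norm (g (f (par y i x))) (g (f (par y i x'))) (par y i x')
        have t3 := hfg.gf (par y i x)
        have t4 := hfg.gf (par y i x')
        rw [nd_comm W1.norm] at t4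
        have t5 := hfg.g_le (f (par y i x)) (f (par y i x'))
        have t6 : K * nd (gN (LN d k₂)) (f (par y i x)) (f (par y i x')) ≤ K * S :=
          Nat.mul_le_mul_left K hS
        omega
      rw [par_dist] at h1
      have h2 : dI (enc d k₁ hd0 (fun j => x (Fin.castAdd d j))).pos
          (enc d k₁ hd0 (fun j => x' (Fin.castAdd d j))).pos ≤ K + (K * S + K) + K :=
        (F1.near _ _ _ (by omega)).1
      have h3 : dI (enc d k₁ hd0 (fun j => x (Fin.natAdd d j))).pos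
          (enc d k₁ hd0 (fun j => x' (Fin.natAdd d j))).pos ≤ K + (K * S + K) + K :=
        (F1.near _ _ _ (by omega)).1
      rw [dI_le]
      intro j
      refine Fin.addCases (fun j => ?_) (fun j => ?_) j
      · exact enc_low d k₁ hd0 _ _ _ h2 j
      · exact enc_low d k₁ hd0 _ _ _ h3 j
  refine ⟨?_, ?_, ?_⟩
  · -- leaf flats to leaf flats
    obtain ⟨C0, hC0⟩ := hDFLAT n hn (L d k₂) (LN d k₂) F2.norm P₂ (d + d) (d + 1) ΔF (by omega)
      hcol K' ρ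
    obtain ⟨C1, hC1⟩ := hLEAF d k₂ (d + d) (d + 1) (L d k₂) (nd (LN d k₂)) ΔF (by omega)
      (fun x => nd_self F2.norm x) (fun x y => nd_comm F2.norm x y)
      (fun x y z => nd_tri F2.norm x y z) hcol (C0 + K' + C0) (fun S => ρ (C0 + S + C0))
    obtain ⟨B, hB⟩ := F2.bdd C1
    refine ⟨C0 + (B + B), ?_⟩
    intro y i
    obtain ⟨y', i', hy'⟩ := hC0 _ (hE y i)
    have hab : ∀ x, ∃ a b : L d k₂,
        nd (gN (LN d k₂)) (f (par y i x)) (y' * ι i' a * ι (i' + 1) b) ≤ C0 := by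
      intro x
      obtain ⟨u, hu, hu2⟩ := hy' x
      obtain ⟨a, b, rfl⟩ := (W2.Fl_mem i' u).1 hu
      refine ⟨a, b, ?_⟩
      rw [mul_assoc]
      exact hu2
    choose a b hab using hab
    -- distances
    have hd1 : ∀ x x', nd (LN d k₂) (a x) (a x') + nd (LN d k₂) (b x) (b x') ≤
        C0 + nd (gN (LN d k₂)) (f (par y i x)) (f (par y i x')) + C0 := by
      intro x x'
      rw [← nd_flat W2 i' y']
      have t1 := nd_tri W2.norm (y' * ι i' (a x) * ι (i' + 1) (b x)) (f (par y i x))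
        (y' * ι i' (a x') * ι (i' + 1) (b x'))
      have t2 := nd_tri W2.norm (f (par y i x)) (f (par y i x'))
        (y' * ι i' (a x') * ι (i' + 1) (b x'))
      have t3 := hab x
      have t4 := hab x'
      rw [nd_comm W2.norm] at t3
      omega
    have hd2 : ∀ x x', nd (gN (LN d k₂)) (f (par y i x)) (f (par y i x')) ≤
        C0 + (nd (LN d k₂) (a x) (a x') + nd (LN d k₂) (b x) (b x')) + C0 := by
      intro x x'
      rw [← nd_flat W2 i' y']
      have t1 := nd_tri W2.norm (f (par y i x)) (y' * ι i' (a x) * ι (i' + 1) (b x))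
        (f (par y i x'))
      have t2 := nd_tri W2.norm (y' * ι i' (a x) * ι (i' + 1) (b x))
        (y' * ι i' (a x') * ι (i' + 1) (b x')) (f (par y i x'))
      have t3 := hab x
      have t4 := hab x'
      rw [nd_comm W2.norm] at t4
      omega
    obtain ⟨lam1, hfin1, hlam1⟩ := hC1 (fun x => (a x, b x)) (by
      constructor
      · intro x x' hx
        have h1 : nd (gN (LN d k₂)) (f (par y i x)) (f (par y i x')) ≤ K' := (hE y i).1 x x' hx
        have h2 := hd1 x x'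
        show nd (LN d k₂) (a x) (a x') + nd (LN d k₂) (b x) (b x') ≤ C0 + K' + C0
        omega
      · intro S x x' hS
        change nd (LN d k₂) (a x) (a x') + nd (LN d k₂) (b x) (b x') ≤ S at hS
        apply (hE y i).2
        have h2 := hd2 x x'
        show nd (gN (LN d k₂)) (f (par y i x)) (f (par y i x')) ≤ C0 + S + C0
        omega)
    obtain ⟨lam2, hfin2, hlam2⟩ := hC1 (fun x => (b x, a x)) (by
      constructor
      · intro x x' hx
        have h1 : nd (gN (LN d k₂)) (f (par y i x)) (f (par y i x')) ≤ K' := (hE y i).1 x x' hx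
        have h2 := hd1 x x'
        show nd (LN d k₂) (b x) (b x') + nd (LN d k₂) (a x) (a x') ≤ C0 + K' + C0
        omega
      · intro S x x' hS
        change nd (LN d k₂) (b x) (b x') + nd (LN d k₂) (a x) (a x') ≤ S at hS
        apply (hE y i).2
        have h2 := hd2 x x'
        show nd (gN (LN d k₂)) (f (par y i x)) (f (par y i x')) ≤ C0 + S + C0
        omega)
    refine ⟨y' * ι i' (⟨lam1, 0, 0, hfin1⟩ : L d k₂) * ι (i' + 1) (⟨lam2, 0, 0, hfin2⟩ : L d k₂),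
      i', ?_⟩
    rintro _ ⟨w, hw, rfl⟩
    obtain ⟨x, rfl⟩ := par_surj y i w hw
    refine ⟨y' * ι i' ((⟨lam1, 0, 0, hfin1⟩ : L d k₂) * L.pt (a x).pos 0) *
      ι (i' + 1) ((⟨lam2, 0, 0, hfin2⟩ : L d k₂) * L.pt (b x).pos 0),
      ⟨L.pt (a x).pos 0, fun _ => rfl, L.pt (b x).pos 0, fun _ => rfl, ?_⟩, ?_⟩
    · rw [map_mul, map_mul]
      have hc := ι_comm (n := n) i' (L.pt (a x).pos 0 : L d k₂) (⟨lam2, 0, 0, hfin2⟩ : L d k₂)
      simp only [mul_assoc]
      rw [← mul_assoc (ι i' (L.pt (a x).pos 0 : L d k₂)), hc]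
      simp only [mul_assoc]
    · have t1 := nd_tri W2.norm (f (par y i x)) (y' * ι i' (a x) * ι (i' + 1) (b x))
        (y' * ι i' ((⟨lam1, 0, 0, hfin1⟩ : L d k₂) * L.pt (a x).pos 0) *
          ι (i' + 1) ((⟨lam2, 0, 0, hfin2⟩ : L d k₂) * L.pt (b x).pos 0))
      rw [nd_flat W2] at t1
      have t2 := hab x
      have t3 := leaf_close d k₂ C1 B hB lam1 hfin1 (a x) (fun q hq => hlam1 x q hq)
      have t4 := leaf_close d k₂ C1 B hB lam2 hfin2 (b x) (fun q hq => hlam2 x q hq)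
      omega
  · -- dichotomy
    obtain ⟨D, hD⟩ := hDIC n hn (L d k₂) (LN d k₂) F2.norm P₂ (d + d) (d + 1) ΔF (by omega)
      hcol K' ρ
    refine ⟨D, ?_⟩
    intro y i J h
    rcases (hD _ (hE y i)).1 J h with h3 | h3
    · left
      intro w hw
      obtain ⟨x, rfl⟩ := par_surj y i w hw
      exact h3 x
    · right
      intro w hw
      obtain ⟨x, rfl⟩ := par_surj y i w hw
      exact h3 x
  · -- deep points
    intro r y i J h
    obtain ⟨x, hx, _⟩ := hDEEP n hn (L d k₂) (LN d k₂) F2.norm P₂ (d + d) (d + 1) ΔF (by omega)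
      hcol K' ρ _ (hE y i) r J J h h
    exact ⟨par y i x, par_mem y i x, hx⟩

end CQ
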